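import Mathlib
import Pool.Agent.Lib_helper87.ASM.Main

set_option autoImplicit false

open MeasureTheory ProbabilityTheory
open scoped ENNReal

namespace Pool.Agent.Results.MP_818a86_pr.NoPerfectMatching

/-- `d`-dimensional Euclidean space. -/
abbrev Space (d : ℕ) : Type := EuclideanSpace ℝ (Fin d)

/-- The number of the points `x 0, x 1, ...` (counted with multiplicity) in the set `A`. -/
noncomputable def count {d : ℕ} (x : ℕ → Space d) (A : Set (Space d)) : ℕ∞ :=
  Set.encard {n | x n ∈ A}

/-- `X 0, X 1, ...` is an enumeration of the points of a homogeneous Poisson point process of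
intensity `1` in `d`-dimensional space, and `c 0, c 1, ...` (`true` is red, `false` is blue) are
colours given to these points independently, each red with probability `p`.

* `counts`: the numbers of points in finitely many disjoint Borel sets of finite volume are
  independent Poisson variables whose means are the volumes of the sets;
* `colours`: the colours are independent of the sequence of the points and of each other, and each
  of them is red with probability `p` and blue with probability `1 - p`. -/
structure IsColouredPoisson {Ω : Type} [MeasurableSpace Ω] (P : Measure Ω) (d : ℕ) (p : ℝ)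
    (X : ℕ → Ω → Space d) (c : ℕ → Ω → Bool) : Prop where
  measurable_point : ∀ n, Measurable (X n)
  measurable_colour : ∀ n, Measurable (c n)
  counts : ∀ (m : ℕ) (A : Fin m → Set (Space d)) (k : Fin m → ℕ), (∀ i, MeasurableSet (A i)) →
    (∀ i, volume (A i) ≠ ⊤) → (∀ i j, i ≠ j → Disjoint (A i) (A j)) →
    P {ω | ∀ i, count (fun n => X n ω) (A i) = k i} =
      ∏ i, poissonMeasure (volume (A i)).toNNReal {k i}
  colours : ∀ (s : Finset ℕ) (b : ℕ → Bool) (B : Set (ℕ → Space d)), MeasurableSet B →
    P {ω | (fun n => X n ω) ∈ B ∧ ∀ n ∈ s, c n ω = b n} =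
      P {ω | (fun n => X n ω) ∈ B} * ∏ n ∈ s, ENNReal.ofReal (if b n then p else 1 - p)

open Classical in
/-- The distance `r(x)` from the point `i` to its partner `m i`, and `⊤` if the point `i` is
unmatched, that is, if `m i = i`. -/
noncomputable def matchDist {d : ℕ} (x : ℕ → Space d) (m : ℕ → ℕ) (i : ℕ) : ℝ≥0∞ :=
  if m i = i then ⊤ else edist (x i) (x (m i))

/-- `m` is a stable matching, for the asymmetric two-type rule, of the points `x i` with colours
`c i` (`true` is red, `false` is blue). Points `i ≠ j` are partners when `m i = j`, and `i` is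
unmatched when `m i = i`. Two blue points are never partners, and no two distinct points `i`, `j`,
not both blue, are closer to each other than both their match distances. -/
structure IsStableMatching {d : ℕ} (x : ℕ → Space d) (c : ℕ → Bool) (m : ℕ → ℕ) : Prop where
  symm : ∀ i, m (m i) = i
  allowed : ∀ i, m i ≠ i → c i = true ∨ c (m i) = true
  stable : ∀ i j, i ≠ j → (c i = true ∨ c j = true) →
    ¬ (edist (x i) (x j) < matchDist x m i ∧ edist (x i) (x j) < matchDist x m j)

lemma iff_isColouredPoisson {Ω : Type} [MeasurableSpace Ω] (P : Measure Ω) (d : ℕ) (p : ℝ)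
    (X : ℕ → Ω → Space d) (c : ℕ → Ω → Bool) :
    IsColouredPoisson P d p X c ↔ Pool.Agent.Lib_helper33.ASM.IsColouredPoisson P p X c := by
  have key : ∀ (m : ℕ) (A : Fin m → Set (Space d)) (k : Fin m → ℕ),
      ∏ i, poissonMeasure (volume (A i)).toNNReal {k i} =
        ENNReal.ofReal (∏ i, Pool.Agent.Lib_helper33.ASM.poi (volume (A i)).toReal (k i)) := by
    intro m A k
    rw [ENNReal.ofReal_prod_of_nonneg]
    · refine Finset.prod_congr rfl fun i _ => ?_
      rw [poissonMeasure_singleton]
      rfl
    · intro i _
      unfold Pool.Agent.Lib_helper33.ASM.poi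
      positivity
  constructor
  · intro h
    refine ⟨h.measurable_point, h.measurable_colour, ?_, h.colours⟩
    intro m A k h1 h2 h3
    rw [← key]
    exact h.counts m A k h1 h2 h3
  · intro h
    refine ⟨h.meas_X, h.meas_c, ?_, h.colours⟩
    intro m A k h1 h2 h3
    rw [key]
    exact h.counts m A k h1 h2 h3

lemma iff_isStableMatching {d : ℕ} (x : ℕ → Space d) (c : ℕ → Bool) (m : ℕ → ℕ) :
    IsStableMatching x c m ↔ Pool.Agent.Lib_helper33.ASM.IsStableMatching x c m :=
  ⟨fun h => ⟨h.symm, h.allowed, h.stable⟩, fun h => ⟨h.invol, h.allowed, h.stable⟩⟩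

/-- Let `d ≥ 1` and `0 < p < 1`. There is a coloured Poisson process, and for every coloured Poisson
process almost surely there is exactly one asymmetric two-type stable matching, and with positive
probability it leaves some point unmatched. -/
theorem result (d : ℕ) (hd : 0 < d) (p : ℝ) (hp0 : 0 < p) (hp1 : p < 1) :
    (∃ (Ω : Type) (_ : MeasurableSpace Ω) (P : Measure Ω) (_ : IsProbabilityMeasure P)
      (X : ℕ → Ω → Space d) (c : ℕ → Ω → Bool), IsColouredPoisson P d p X c) ∧
    ∀ (Ω : Type) [MeasurableSpace Ω] (P : Measure Ω) [IsProbabilityMeasure P]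
      (X : ℕ → Ω → Space d) (c : ℕ → Ω → Bool), IsColouredPoisson P d p X c →
      (∀ᵐ ω ∂P, ∃! m, IsStableMatching (fun n => X n ω) (fun n => c n ω) m) ∧
      ∃ V : Set Ω, MeasurableSet V ∧ 0 < P V ∧ ∀ ω ∈ V, ∃ m,
        IsStableMatching (fun n => X n ω) (fun n => c n ω) m ∧
        (∀ m', IsStableMatching (fun n => X n ω) (fun n => c n ω) m' → m' = m) ∧
        ∃ i, m i = i := by
  refine ⟨?_, fun Ω _ P _ X c hX => ?_⟩
  · obtain ⟨Ω, i1, P, i2, X, c, h⟩ :=
      Pool.Agent.Lib_helper87.ASM.exists_colouredPoisson d hd hp0.le hp1.le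
    exact ⟨Ω, i1, P, i2, X, c, (iff_isColouredPoisson P d p X c).2 h⟩
  · simp_rw [iff_isStableMatching]
    exact Pool.Agent.Lib_helper87.ASM.main_of hd hp0 hp1
      ((iff_isColouredPoisson P d p X c).1 hX)

end Pool.Agent.Results.MP_818a86_pr.NoPerfectMatching
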